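import Pool.Agent.helper63.TI.SpecG

/-!
# Row ta:GPL (helper45): the identity at every place
-/

set_option autoImplicit false

namespace Pool.Agent.TI

open Polynomial NumberField Pool.Agent.GJ Pool.Agent.TK Pool.Agent.TQ Pool.Agent.TFQ Pool.Agent.TD
open Pool.Agent.FJ (VT Om chiO IsFrobO rf rs)

noncomputable section

theorem GPL_prim (l : ℕ) [Fact l.Prime] : ∃ s : rootsOfUnity l Om, Prim s := by
  have hl : l.Prime := Fact.out
  have hl0 : NeZero (l : Om) := ⟨by exact_mod_cast hl.ne_zero⟩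
  obtain ⟨ζ, hζ⟩ := HasEnoughRootsOfUnity.exists_primitiveRoot Om l
  refine ⟨hζ.toRootsOfUnity, ?_⟩
  exact hζ

theorem GPL_iota : Nonempty (Om →+* ℂ) := by
  have : Algebra.IsAlgebraic ℚ Om := AlgebraicClosure.isAlgebraic ℚ
  exact ⟨(IsAlgClosed.lift : Om →ₐ[ℚ] ℂ).toRingHom⟩

theorem GPL_count : Countable Om := by
  rw [← Cardinal.mk_le_aleph0_iff]
  have h : Algebra.IsAlgebraic ℚ (AlgebraicClosure ℚ) := AlgebraicClosure.isAlgebraic ℚ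
  refine (Algebra.IsAlgebraic.cardinalMk_le_max ℚ (AlgebraicClosure ℚ)).trans ?_
  simp

/-- the last coefficient is a Jacobi sum -/
theorem GPL_J (hQP3 : QP3_stmt) {F : Type} [Field F] [Fintype F] [DecidableEq F] {l n : ℕ}
    (hl : 1 < l) (χ : MulChar F Om) (hχ : χ ^ l = 1) (μ : Fin (n + 1) → ℕ) (hμ : ∀ j, 0 < μ j)
    (A : Fin (n + 1) → F) (hA : Function.Injective A) :
    ∑ c ∈ Gq A n, (∏ j, χ ((gq c).eval (A j)) ^ μ j)⁻¹ = cJQ χ μ (lm A) (l - 1) := by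
  rw [hQP3 F n A hA Om (fun w => (∏ j, χ (w j) ^ μ j)⁻¹)]
  unfold cJQ
  refine Finset.sum_congr rfl fun w _ => ?_
  by_cases h1 : ∑ j, lm A j * w j = 1
  · by_cases h2 : ∀ j, w j ≠ 0
    · rw [if_pos ⟨h1, h2⟩, if_pos h1, ← Finset.prod_inv_distrib]
      refine Finset.prod_congr rfl fun j _ => ?_
      have h3 : χ (w j) ^ l = 1 := by
        have h4 : (χ ^ l) (w j) = 1 := by rw [hχ, MulChar.one_apply (Ne.isUnit (h2 j))]
        rwa [MulChar.pow_apply' χ (by omega)] at h4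
      have h5 : (χ (w j))⁻¹ = χ (w j) ^ (l - 1) := by
        apply inv_eq_of_mul_eq_one_right
        rw [← pow_succ', Nat.sub_add_cancel hl.le, h3]
      rw [pow_mul, ← h5, inv_pow]
    · rw [if_neg (fun h => h2 h.2), if_pos h1]
      push Not at h2
      obtain ⟨j, hj⟩ := h2
      symm
      apply Finset.prod_eq_zero (Finset.mem_univ j)
      rw [hj, MulChar.map_zero, zero_pow (Nat.mul_ne_zero (by omega) (hμ j).ne')]
  · rw [if_neg (fun h => h1 h.1), if_neg h1]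

theorem GPL_lm {F : Type} [Field F] {n : ℕ} (A : Fin (n + 1) → F) (hA : Function.Injective A)
    (j : Fin (n + 1)) : lm A j ≠ 0 :=
  inv_ne_zero (Finset.prod_ne_zero_iff.2 fun i hi =>
    sub_ne_zero.2 fun h => (Finset.ne_of_mem_erase hi) (hA h).symm)

theorem GPL_lm01 {F : Type} [Field F] : lm (![0, 1] : Fin (1 + 1) → F) = ![-1, 1] := by
  have e0 : (Finset.univ : Finset (Fin (1 + 1))).erase 0 = {1} := by decide
  have e1 : (Finset.univ : Finset (Fin (1 + 1))).erase 1 = {0} := by decide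
  funext j
  fin_cases j
  · show (∏ i ∈ Finset.univ.erase (0 : Fin (1 + 1)), ((![0, 1] : Fin (1 + 1) → F) 0 - (![0, 1] : Fin (1 + 1) → F) i))⁻¹ = -1
    rw [e0, Finset.prod_singleton]
    show ((0 : F) - 1)⁻¹ = -1
    rw [zero_sub, inv_neg, inv_one]
  · show (∏ i ∈ Finset.univ.erase (1 : Fin (1 + 1)), ((![0, 1] : Fin (1 + 1) → F) 1 - (![0, 1] : Fin (1 + 1) → F) i))⁻¹ = 1
    rw [e1, Finset.prod_singleton]
    show ((1 : F) - 0)⁻¹ = 1
    rw [sub_zero, inv_one]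

/-- the Jacobi curve `(b, k)` -/
theorem GPL_kap (hQB2 : QB2_stmt) (hQCF : QCF_stmt) (hQP3 : QP3_stmt) (hLP : LP_stmt)
    (hVF : VF_stmt) (hNBK : NBK_stmt) (hDD : GJ.DD_stmt) (l q : ℕ) [Fact l.Prime] [Fact q.Prime]
    (hl2 : l ≠ 2) (b k : ℕ) (hb : 0 < b) (hbl : b < l) (hk : 0 < k) (hkl : k + 1 < l) :
    ∃ D0 : ℕ, 0 < D0 ∧ ∀ (p M α : ℕ) [Fact p.Prime] (F : Type) [Field F] [Fintype F] [DecidableEq F]
      (O : ValuationSubring Om) [CharP (rf O) p] (e : F →+* rf O) (χ : MulChar F Om) (σ : Om ≃+* Om),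
      IsPlQ (l := l) aJ α O e χ σ (![0, 1] : Fin (1 + 1) → F) → cq F = p ^ M →
      ((D0 : ℕ) : rf O) ≠ 0 → ∀ s : rootsOfUnity l Om, Prim s → ∀ y : Fl q l, IsKap l q s σ b k y →
      ∃ P1 : ℤ[X], aeval ((s : Omˣ) : Om) P1 = cJQ χ (muJ l b k) ![-1, 1] (l - 1) ∧
        y = - fl (P1.map (Int.castRingHom ℚ_[q])) := by
  have hlp : l.Prime := Fact.out
  have hl0 : NeZero (l : Om) := ⟨by exact_mod_cast hlp.ne_zero⟩
  have hG : Good Om l (muJ l b k) aJ := goodJ hb hbl hk hkl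
  have hded : IsDedekindDomain (CR Om l (muJ l b k) aJ) := hDD Om l 1 (muJ l b k) aJ
  obtain ⟨ι⟩ := GPL_iota
  have hcount : Countable Om := GPL_count
  have hfree : ∀ s : rootsOfUnity l Om, Prim s →
      IsFreeZ l 1 (zK q s : Module.End ℚ_[q] (VT q (JC Om l (muJ l b k) aJ))) := fun s hs =>
    hVF Om ι l 1 q hl2 one_pos (muJ l b k) aJ s hs
  have hfin : FiniteDimensional ℚ_[q] (VT q (JC Om l (muJ l b k) aJ)) := by
    obtain ⟨s, hs⟩ := GPL_prim l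
    obtain ⟨v, bb, _⟩ := hfree s hs
    exact Module.Finite.of_basis bb
  obtain ⟨D0, hD0, hrel⟩ := hQB2 l 1 q (muJ l b k) aJ hfin
  obtain ⟨-, -, hcomm, hsum, -, -⟩ := hNBK Om l 1 q (muJ l b k) aJ
  refine ⟨D0, hD0, ?_⟩
  intro p M α _ F _ _ _ O _ e χ σ hP hQ hne s hs y hy
  have hχ : χ ^ l = 1 := by
    rw [← hP.ord]
    exact pow_orderOf_eq_one χ
  obtain ⟨P, hP0, hPev, hPop⟩ := hQCF l 1 (muJ l b k) F χ ![0, 1] s hs hχ
  have hr := hrel p M α F O e χ σ ![0, 1] hP hQ hne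
  rw [Finset.sum_range_succ, Finset.sum_range_one, hPop q aJ 0, hPop q aJ 1, hP0,
    Polynomial.map_one, map_one, one_mul] at hr
  have hσ : (VT.map q (actA σ (fixJ σ) (1 : rootsOfUnity l Om)) :
      Module.End ℚ_[q] (VT q (JC Om l (muJ l b k) aJ))) =
      aeval (zK q s : Module.End ℚ_[q] (VT q (JC Om l (muJ l b k) aJ)))
        (-((P 1).map (Int.castRingHom ℚ_[q]))) := by
    rw [map_neg]
    apply eq_neg_of_add_eq_zero_left
    rw [Nat.sub_zero, pow_one, Nat.sub_self, pow_zero, mul_one] at hr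
    exact hr
  obtain ⟨-, huniq, -, -, hae⟩ := hLP q l (VT q (JC Om l (muJ l b k) aJ)) (zK q s) 1 (hfree s hs)
    (hsum s hs)
  have h1 := hae (-((P 1).map (Int.castRingHom ℚ_[q])))
  rw [pow_one, ← hσ] at h1
  have hcm := hcomm σ (fixJ σ) s (hP.zeta _ (CR.rou s))
  have h2 := huniq _ _ _ hcm (hy hG) h1
  refine ⟨P 1, ?_, ?_⟩
  · rw [hPev 1, GPL_J hQP3 hlp.one_lt χ hχ (muJ l b k) hG.pos ![0, 1] hP.inj, GPL_lm01]
  · rw [h2]
    exact map_neg _ _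

theorem GPL (hGS : GS_stmt) (hPIJ : PIJ_stmt) (hQB2 : QB2_stmt) (hQCF : QCF_stmt)
    (hQP3 : QP3_stmt) (hLP : LP_stmt) (hVF : VF_stmt) (hNBK : NBK_stmt) (hDD : GJ.DD_stmt) :
    GPL_stmt := by
  classical
  intro l n q _ _ hl2 μ a hga
  have hlp : l.Prime := Fact.out
  have hl3 : 2 < l := lt_of_le_of_ne hlp.two_le (Ne.symm hl2)
  have key : ∀ b k : ℕ, ∃ D0 : ℕ, 0 < D0 ∧ (0 < b → b < l → 0 < k → k + 1 < l →
      ∀ (p M α : ℕ) [Fact p.Prime] (F : Type) [Field F] [Fintype F] [DecidableEq F]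
      (O : ValuationSubring Om) [CharP (rf O) p] (e : F →+* rf O) (χ : MulChar F Om) (σ : Om ≃+* Om),
      IsPlQ (l := l) aJ α O e χ σ (![0, 1] : Fin (1 + 1) → F) → cq F = p ^ M →
      ((D0 : ℕ) : rf O) ≠ 0 → ∀ s : rootsOfUnity l Om, Prim s → ∀ y : Fl q l, IsKap l q s σ b k y →
      ∃ P1 : ℤ[X], aeval ((s : Omˣ) : Om) P1 = cJQ χ (muJ l b k) ![-1, 1] (l - 1) ∧
        y = - fl (P1.map (Int.castRingHom ℚ_[q]))) := by
    intro b k
    by_cases hc : 0 < b ∧ b < l ∧ 0 < k ∧ k + 1 < l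
    · obtain ⟨D0, h0, h1⟩ := GPL_kap hQB2 hQCF hQP3 hLP hVF hNBK hDD l q hl2 b k hc.1 hc.2.1
        hc.2.2.1 hc.2.2.2
      exact ⟨D0, h0, fun _ _ _ _ => h1⟩
    · exact ⟨1, one_pos, fun h1 h2 h3 h4 => absurd ⟨h1, h2, h3, h4⟩ hc⟩
  choose D hD hkey using key
  refine ⟨∏ b ∈ Finset.range l, ∏ k ∈ Finset.range l, D b k,
    Finset.prod_pos fun b _ => Finset.prod_pos fun k _ => hD b k, ?_⟩
  intro p M α _ F _ _ _ O _ e χ σ A hP hQ hne s hs P hPol y hy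
  have hPJ := hPIJ l n a F α O e χ σ A hP
  have hχ : χ ^ l = 1 := by
    rw [← hP.ord]
    exact pow_orderOf_eq_one χ
  have hDne : ∀ b k, b < l → k < l → ((D b k : ℕ) : rf O) ≠ 0 := by
    intro b k hb hk h0
    apply hne
    rw [Nat.cast_prod]
    apply Finset.prod_eq_zero (Finset.mem_range.2 hb)
    rw [Nat.cast_prod]
    exact Finset.prod_eq_zero (Finset.mem_range.2 hk) h0
  have hpoly : ∀ b k, ∃ P1 : ℤ[X], 0 < b → b < l → 0 < k → k + 1 < l →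
      aeval ((s : Omˣ) : Om) P1 = cJQ χ (muJ l b k) ![-1, 1] (l - 1) ∧
        y b k = - fl (P1.map (Int.castRingHom ℚ_[q])) := by
    intro b k
    by_cases hc : 0 < b ∧ b < l ∧ 0 < k ∧ k + 1 < l
    · obtain ⟨c1, c2, c3, c4⟩ := hc
      obtain ⟨P1, h1⟩ := hkey b k c1 c2 c3 c4 p M α F O e χ σ hPJ hQ (hDne b k c2 (by omega)) s hs
        (y b k) (hy b k c1 c2 c3 c4)
      exact ⟨P1, fun _ _ _ _ => h1⟩
    · exact ⟨1, fun h1 h2 h3 h4 => absurd ⟨h1, h2, h3, h4⟩ hc⟩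
  choose Pj hPj using hpoly
  have hGS1 := hGS F l χ n μ (lm A) (l - 1) hlp hl3 hP.ord (fun j => ⟨hga.pos j, hga.lt j⟩) hga.inf
    (GPL_lm A hP.inj) (by omega) (by omega)
  have hinf : ¬ l ∣ ∑ j, μ j := hga.inf
  set S : ℕ := (∑ j, μ j) % l with hS
  have hS0 : 0 < S := Nat.pos_of_ne_zero fun h => hinf (Nat.dvd_of_mod_eq_zero h)
  have hSl : S < l := Nat.mod_lt _ hlp.pos
  have hIco : ∀ k ∈ Finset.Ico 1 (l - 1), 0 < k ∧ k + 1 < l := by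
    intro k hk
    rw [Finset.mem_Ico] at hk
    omega
  have eL : aeval ((s : Omˣ) : Om) ((P n) ^ l * ∏ k ∈ Finset.Ico 1 (l - 1), Pj S k) =
      cJQ χ μ (lm A) (l - 1) ^ l *
        ∏ k ∈ Finset.Ico 1 (l - 1), cJQ χ (muJ l S k) ![-1, 1] (l - 1) := by
    rw [map_mul, map_pow, map_prod, hPol.ev n, GPL_J hQP3 hlp.one_lt χ hχ μ hga.pos A hP.inj]
    congr 1
    exact Finset.prod_congr rfl fun k hk => (hPj S k hS0 hSl (hIco k hk).1 (hIco k hk).2).1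
  have eR : aeval ((s : Omˣ) : Om)
      (((cq F : ℕ) : ℤ[X]) ^ n * ∏ j, ∏ k ∈ Finset.Ico 1 (l - 1), Pj (μ j) k) =
      (cq F : Om) ^ n * ∏ j, ∏ k ∈ Finset.Ico 1 (l - 1), cJQ χ (muJ l (μ j) k) ![-1, 1] (l - 1) := by
    rw [map_mul, map_pow, map_natCast, map_prod]
    congr 1
    refine Finset.prod_congr rfl fun j _ => ?_
    rw [map_prod]
    exact Finset.prod_congr rfl fun k hk =>
      (hPj (μ j) k (hga.pos j) (hga.lt j) (hIco k hk).1 (hIco k hk).2).1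
  have hdvd : cyclotomic l ℤ ∣ ((P n) ^ l * ∏ k ∈ Finset.Ico 1 (l - 1), Pj S k) -
      (((cq F : ℕ) : ℤ[X]) ^ n * ∏ j, ∏ k ∈ Finset.Ico 1 (l - 1), Pj (μ j) k) := by
    have hs' : IsPrimitiveRoot ((s : Omˣ) : Om) l := hs
    have h0 : aeval ((s : Omˣ) : Om) (((P n) ^ l * ∏ k ∈ Finset.Ico 1 (l - 1), Pj S k) -
        (((cq F : ℕ) : ℤ[X]) ^ n * ∏ j, ∏ k ∈ Finset.Ico 1 (l - 1), Pj (μ j) k)) = 0 := by
      rw [map_sub, eL, eR, hGS1, sub_self]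
    rw [cyclotomic_eq_minpoly hs' hlp.pos]
    apply minpoly.isIntegrallyClosed_dvd (hs'.isIntegral hlp.pos)
    exact h0
  set ρ : ℤ[X] →+* Fl q l :=
    (AdjoinRoot.mk (cyclotomic l ℚ_[q])).comp (mapRingHom (Int.castRingHom ℚ_[q])) with hρ
  have hρe : ∀ Q : ℤ[X], (fl (Q.map (Int.castRingHom ℚ_[q])) : Fl q l) = ρ Q := fun Q => rfl
  have hfl : ρ ((P n) ^ l * ∏ k ∈ Finset.Ico 1 (l - 1), Pj S k) =
      ρ (((cq F : ℕ) : ℤ[X]) ^ n * ∏ j, ∏ k ∈ Finset.Ico 1 (l - 1), Pj (μ j) k) := by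
    rw [← hρe, ← hρe]
    apply AdjoinRoot.mk_eq_mk.2
    obtain ⟨w, hw⟩ := hdvd
    refine ⟨w.map (Int.castRingHom ℚ_[q]), ?_⟩
    rw [← Polynomial.map_sub, hw, Polynomial.map_mul, map_cyclotomic_int]
  rw [map_mul, map_pow, map_prod, map_mul, map_pow, map_natCast, map_prod] at hfl
  have hfl2 : ∀ j, ρ (∏ k ∈ Finset.Ico 1 (l - 1), Pj (μ j) k) =
      ∏ k ∈ Finset.Ico 1 (l - 1), ρ (Pj (μ j) k) := fun j => map_prod ρ _ _
  rw [Finset.prod_congr rfl fun j _ => hfl2 j] at hfl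
  have hodd : Odd l := hlp.odd_of_ne_two hl2
  have hc : Odd (Finset.Ico 1 (l - 1)).card := by
    rw [Nat.card_Ico]
    obtain ⟨r, hr⟩ := hodd
    exact ⟨r - 1, by omega⟩
  have e1 : ∏ k ∈ Finset.Ico 1 (l - 1), y S k = - ∏ k ∈ Finset.Ico 1 (l - 1), ρ (Pj S k) := by
    have h1 : ∀ k ∈ Finset.Ico 1 (l - 1), y S k = - ρ (Pj S k) := fun k hk =>
      (hPj S k hS0 hSl (hIco k hk).1 (hIco k hk).2).2
    rw [Finset.prod_congr rfl h1, Finset.prod_neg, hc.neg_one_pow, neg_one_mul]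
  have e2 : ∀ j, ∏ k ∈ Finset.Ico 1 (l - 1), y (μ j) k =
      - ∏ k ∈ Finset.Ico 1 (l - 1), ρ (Pj (μ j) k) := by
    intro j
    have h1 : ∀ k ∈ Finset.Ico 1 (l - 1), y (μ j) k = - ρ (Pj (μ j) k) := fun k hk =>
      (hPj (μ j) k (hga.pos j) (hga.lt j) (hIco k hk).1 (hIco k hk).2).2
    rw [Finset.prod_congr rfl h1, Finset.prod_neg, hc.neg_one_pow, neg_one_mul]
  rw [e1, Finset.prod_congr rfl fun j _ => e2 j, Finset.prod_neg, Finset.card_univ, Fintype.card_fin,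
    hρe, mul_pow, ← pow_mul, mul_comm n l, pow_mul, hodd.neg_one_pow]
  calc (-1) ^ n * (ρ (P n)) ^ l * -∏ k ∈ Finset.Ico 1 (l - 1), ρ (Pj S k)
      = (-1) ^ (n + 1) * ((ρ (P n)) ^ l * ∏ k ∈ Finset.Ico 1 (l - 1), ρ (Pj S k)) := by
        rw [pow_succ]; ring
    _ = (cq F : Fl q l) ^ n * ((-1) ^ (n + 1) *
        ∏ j, ∏ k ∈ Finset.Ico 1 (l - 1), ρ (Pj (μ j) k)) := by
        rw [hfl]; ring

end

end Pool.Agent.TI
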